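import Mathlib

set_option autoImplicit false

namespace Pool.Agent.H.MP_8dad81_al

open Matrix

/-- The standard symplectic form. -/
def J (n : ℕ) : Matrix (Fin n ⊕ Fin n) (Fin n ⊕ Fin n) ℂ := fromBlocks 0 1 (-1) 0

/-- Membership in the compact symplectic group. -/
def InSp {n : ℕ} (A : Matrix (Fin n ⊕ Fin n) (Fin n ⊕ Fin n) ℂ) : Prop :=
  A ∈ unitaryGroup (Fin n ⊕ Fin n) ℂ ∧ Aᵀ * J n * A = J n

variable {n : ℕ}

abbrev Mt (n : ℕ) := Matrix (Fin n ⊕ Fin n) (Fin n ⊕ Fin n) ℂ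
abbrev Vc (n : ℕ) := Fin n ⊕ Fin n → ℂ

def S (A : Mt n) : Prop := Aᴴ * A = 1 ∧ A * J n = J n * Aᴴᵀ

theorem J_bar : (J n)ᴴᵀ = J n := by
  ext (i | i) (j | j) <;> simp [J, one_apply, apply_ite star]

theorem S.bar {A : Mt n} (h : S A) : Aᴴᵀ * J n = J n * A := by
  have := congrArg (fun M : Mt n => Mᴴᵀ) h.2
  simp only [conjTranspose_mul, transpose_mul, J_bar] at this
  exact this.trans (by congr 1; ext; simp)

theorem S_iff (A : Mt n) : S A ↔ InSp A := by
  rw [InSp, mem_unitaryGroup_iff', star_eq_conjTranspose]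
  constructor
  · intro h
    refine ⟨h.1, ?_⟩
    rw [Matrix.mul_assoc, ← h.bar, ← Matrix.mul_assoc, ← transpose_mul, h.1, transpose_one, one_mul]
  · rintro ⟨h1, h2⟩
    refine ⟨h1, ?_⟩
    have h3 : Aᴴᵀ * J n = J n * A := by
      rw [← h2, Matrix.mul_assoc Aᵀ, ← Matrix.mul_assoc, ← transpose_mul, mul_eq_one_comm.1 h1,
        transpose_one, one_mul, ← Matrix.mul_assoc, h2]
    have := congrArg (fun M : Mt n => Mᴴᵀ) h3
    simp only [conjTranspose_mul, transpose_mul, J_bar] at this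
    exact Eq.trans (by congr 1; ext; simp) this

theorem S.mul {A B : Mt n} (hA : S A) (hB : S B) : S (A * B) := by
  constructor
  · rw [conjTranspose_mul, Matrix.mul_assoc, ← Matrix.mul_assoc Aᴴ, hA.1, one_mul, hB.1]
  · rw [Matrix.mul_assoc, hB.2, ← Matrix.mul_assoc, hA.2, conjTranspose_mul, transpose_mul,
      Matrix.mul_assoc]

theorem S.ct {A : Mt n} (h : S A) : S Aᴴ := by
  have h1 := mul_eq_one_comm.1 h.1
  constructor
  · rwa [conjTranspose_conjTranspose]
  · rw [conjTranspose_conjTranspose]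
    calc Aᴴ * J n = Aᴴ * (J n * (A * Aᴴ)ᵀ) := by rw [h1, transpose_one, mul_one]
      _ = _ := by
        rw [transpose_mul, ← Matrix.mul_assoc (J n), ← h.2, Matrix.mul_assoc, ← Matrix.mul_assoc,
          h.1, one_mul]

def ip (x y : Vc n) : ℂ := star x ⬝ᵥ y

def σ (x : Vc n) : Vc n := Sum.elim (fun i => star (x (.inr i))) fun i => -star (x (.inl i))

theorem σ_eq (x : Vc n) : σ x = J n *ᵥ star x := by
  rw [J, fromBlocks_mulVec]
  ext (i | i) <;> simp [σ, neg_mulVec]

theorem σσ (x : Vc n) : σ (σ x) = -x := by ext (i | i) <;> simp [σ]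

theorem σ_smul (c : ℂ) (x : Vc n) : σ (c • x) = star c • σ x := by ext (i | i) <;> simp [σ]

theorem σ_add (x y : Vc n) : σ (x + y) = σ x + σ y := by ext (i | i) <;> simp [σ, add_comm]

theorem σ_sub (x y : Vc n) : σ (x - y) = σ x - σ y := by
  ext (i | i) <;> simp [σ]; ring

theorem ip_σσ (x y : Vc n) : ip (σ x) (σ y) = ip y x := by
  simp [ip, σ, dotProduct, mul_comm, add_comm]

theorem ip_σ (x y : Vc n) : ip x (σ y) = -ip y (σ x) := by
  simp [ip, σ, dotProduct, mul_comm]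

theorem ip_σ_self (x : Vc n) : ip x (σ x) = 0 := by linear_combination (ip_σ x x) / 2

theorem ip_star (x y : Vc n) : ip x y = star (ip y x) := star_dotProduct _ _

theorem ip_smul_l (c : ℂ) (x y : Vc n) : ip (c • x) y = star c * ip x y := by simp [ip]

theorem ip_smul_r (c : ℂ) (x y : Vc n) : ip x (c • y) = c * ip x y := by simp [ip]

theorem ip_add_l (x y z : Vc n) : ip (x + y) z = ip x z + ip y z := by simp [ip]

theorem ip_add_r (x y z : Vc n) : ip x (y + z) = ip x y + ip x z := by simp [ip]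

theorem ip_sub_l (x y z : Vc n) : ip (x - y) z = ip x z - ip y z := by simp [ip]

theorem S.ip {A : Mt n} (h : S A) (x y : Vc n) : ip (A *ᵥ x) (A *ᵥ y) = ip x y := by
  rw [MP_8dad81_al.ip, star_mulVec, dotProduct_mulVec, vecMul_vecMul, h.1, vecMul_one]; rfl

theorem S.σ {A : Mt n} (h : S A) (x : Vc n) : A *ᵥ σ x = σ (A *ᵥ x) := by
  rw [σ_eq, σ_eq, mulVec_mulVec, h.2, star_mulVec, ← mulVec_mulVec, mulVec_transpose]

open scoped ComplexOrder in
theorem normalize {x : Vc n} (h : x ≠ 0) : ∃ c : ℂ, c ≠ 0 ∧ ip (c • x) (c • x) = 1 := by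
  obtain ⟨h1, h2⟩ := Complex.pos_iff.1 (dotProduct_star_self_pos_iff.2 h)
  have h3 : ip x x = ((star x ⬝ᵥ x).re : ℂ) := Complex.ext rfl h2.symm
  have h4 := Real.sqrt_pos.2 h1
  refine ⟨((√(star x ⬝ᵥ x).re)⁻¹ : ℝ), by exact_mod_cast (inv_pos.2 h4).ne', ?_⟩
  rw [ip_smul_l, ip_smul_r, h3, Complex.star_def, Complex.conj_ofReal]
  have := Real.mul_self_sqrt h1.le
  norm_cast
  field_simp
  linarith

structure Fam (A : Mt n) {k : ℕ} (v : Fin k → Vc n) (z : Fin k → ℂ) : Prop where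
  on : ∀ i j, ip (v i) (v j) = if i = j then 1 else 0
  sy : ∀ i j, ip (v i) (σ (v j)) = 0
  ev : ∀ i, A *ᵥ v i = z i • v i

theorem Fam.un {A : Mt n} (h : S A) {k : ℕ} {v : Fin k → Vc n} {z : Fin k → ℂ} (f : Fam A v z)
    (i : Fin k) : star (z i) * z i = 1 := by
  have := h.ip (v i) (v i)
  rwa [f.ev, ip_smul_l, ip_smul_r, f.on, if_pos rfl, mul_one] at this

theorem Fam.ext {A : Mt n} (h : S A) {k : ℕ} (hk : k < n) {v : Fin k → Vc n} {z : Fin k → ℂ}
    (f : Fam A v z) : ∃ x c, Fam A (Fin.snoc v x) (Fin.snoc z c) := by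
  let L : Vc n →ₗ[ℂ] (Fin k ⊕ Fin k → ℂ) :=
    { toFun := fun x => Sum.elim (fun i => ip (v i) x) fun i => ip (σ (v i)) x
      map_add' := fun x y => by ext (i | i) <;> simp [ip_add_r]
      map_smul' := fun c x => by ext (i | i) <;> simp [ip_smul_r] }
  have hL : ∀ x, x ∈ LinearMap.ker L ↔ ∀ i, ip (v i) x = 0 ∧ ip (σ (v i)) x = 0 := fun x =>
    ⟨fun hx i => ⟨congrFun hx (.inl i), congrFun hx (.inr i)⟩,
      fun hx => by ext (i | i); exacts [(hx i).1, (hx i).2]⟩
  have h1 : LinearMap.ker L ≠ ⊥ := L.ker_ne_bot_of_finrank_lt (by simp; omega)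
  have : Nontrivial (LinearMap.ker L) := Submodule.nontrivial_iff_ne_bot.2 h1
  have h2 : ∀ x ∈ LinearMap.ker L, A.mulVecLin x ∈ LinearMap.ker L := by
    intro x hx
    rw [hL] at hx ⊢
    intro i
    have a1 := h.ip (v i) x
    have a2 := h.ip (σ (v i)) x
    have a3 := f.un h i
    rw [f.ev, ip_smul_l, (hx i).1] at a1
    rw [h.σ, f.ev, σ_smul, ip_smul_l, (hx i).2, star_star] at a2
    exact ⟨(mul_eq_zero.1 a1).resolve_left (left_ne_zero_of_mul_eq_one a3),
      (mul_eq_zero.1 a2).resolve_left (right_ne_zero_of_mul_eq_one a3)⟩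
  obtain ⟨c, hc⟩ := Module.End.exists_eigenvalue (A.mulVecLin.restrict h2)
  obtain ⟨⟨x, hx⟩, x1, x2⟩ := hc.exists_hasEigenvector
  have x3 : A *ᵥ x = c • x := congrArg Subtype.val (Module.End.mem_eigenspace_iff.1 x1)
  obtain ⟨d, -, hd⟩ := normalize (x := x) fun e => x2 (Subtype.ext e)
  have x4 := (hL _).1 (Submodule.smul_mem _ d hx)
  refine ⟨d • x, c, fun i j => ?_, fun i j => ?_, fun i => ?_⟩
  · induction i using Fin.lastCases <;> induction j using Fin.lastCases
    · simp [hd]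
    · simp [ip_star (d • x), (x4 _).1, (Fin.castSucc_lt_last _).ne']
    · simp [(x4 _).1, (Fin.castSucc_lt_last _).ne]
    · simp [f.on]
  · induction i using Fin.lastCases <;> induction j using Fin.lastCases
    · simp [ip_σ_self]
    · simp [ip_star (d • x), (x4 _).2]
    · simp [ip_σ (v _), ip_star (d • x), (x4 _).2]
    · simp [f.sy]
  · induction i using Fin.lastCases
    · simp [mulVec_smul, x3, smul_comm c]
    · simp [f.ev]

theorem Fam.full {A : Mt n} (h : S A) {k : ℕ} (hk : k ≤ n) {v : Fin k → Vc n} {z : Fin k → ℂ}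
    (f : Fam A v z) : ∃ v' z', Fam A (k := n) v' z' ∧
      ∀ i, v' (Fin.castLE hk i) = v i ∧ z' (Fin.castLE hk i) = z i := by
  have : ∀ m (hm : k ≤ m), m ≤ n → ∃ v' z', Fam A (k := m) v' z' ∧
      ∀ i, v' (Fin.castLE hm i) = v i ∧ z' (Fin.castLE hm i) = z i := by
    intro m hm
    induction m, hm using Nat.le_induction with
    | base => exact fun _ => ⟨v, z, f, fun _ => ⟨rfl, rfl⟩⟩
    | succ m hm ih =>
      intro h1
      obtain ⟨v', z', f', e⟩ := ih (by omega)
      obtain ⟨x, c, g⟩ := f'.ext h (by omega)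
      refine ⟨_, _, g, fun i => ?_⟩
      rw [show Fin.castLE (Nat.le_succ_of_le hm) i = (Fin.castLE hm i).castSucc from rfl,
        Fin.snoc_castSucc, Fin.snoc_castSucc]
      exact e i
  exact this n hk le_rfl

def mkU (v : Fin n → Vc n) : Mt n := of fun a b => Sum.elim v (fun i => -σ (v i)) b a

theorem mk_ct (v : Fin n → Vc n) (x : Vc n) :
    (mkU v)ᴴ *ᵥ x = Sum.elim (fun i => ip (v i) x) fun i => -ip (σ (v i)) x := by
  ext (i | i) <;> simp [mkU, mulVec, dotProduct, ip]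

theorem Fam.S {A : Mt n} {v : Fin n → Vc n} {z : Fin n → ℂ} (f : Fam A v z) : S (mkU v) := by
  constructor
  · ext a b
    have : ((mkU v)ᴴ * mkU v) a b = ((mkU v)ᴴ *ᵥ Sum.elim v (fun i => -σ (v i)) b) a := rfl
    have h1 : ∀ x y : Vc n, ip x (-y) = -ip x y := fun x y => by simp [ip]
    rw [this, mk_ct]
    rcases a with i | i <;> rcases b with j | j
    · simp [f.on, one_apply]
    · simp [f.sy, h1]
    · simp [ip_star (σ _), f.sy]
    · simp [h1, ip_σσ, f.on, one_apply, eq_comm]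
  · ext (a | a) (b | b) <;> simp [mkU, J, mul_apply, σ, one_apply]

theorem Fam.diag {A : Mt n} (h : MP_8dad81_al.S A) {v : Fin n → Vc n} {z : Fin n → ℂ}
    (f : Fam A v z) : A = mkU v * diagonal (Sum.elim z (star z)) * (mkU v)ᴴ := by
  have : A * mkU v = mkU v * diagonal (Sum.elim z (star z)) := by
    ext a b
    have : (A * mkU v) a b = (A *ᵥ Sum.elim v (fun i => -σ (v i)) b) a := rfl
    rw [this, mul_diagonal]
    rcases b with j | j
    · simp [f.ev, mkU, mul_comm]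
    · simp [mulVec_neg, h.σ, f.ev, σ_smul, mkU, mul_comm]
  rw [← this, Matrix.mul_assoc, mul_eq_one_comm.1 f.S.1, mul_one]

def mon (τ : Fin n ⊕ Fin n → Fin n ⊕ Fin n) (c : Vc n) : Mt n :=
  of fun a b => if b = τ a then c a else 0

theorem mon_mul (τ τ' : Fin n ⊕ Fin n → Fin n ⊕ Fin n) (c c' : Vc n) :
    mon τ c * mon τ' c' = mon (fun a => τ' (τ a)) fun a => c a * c' (τ a) := by
  ext a b
  rw [mul_apply, Finset.sum_eq_single (τ a) (fun j _ h => by simp [mon, h]) (by simp)]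
  simp [mon]

theorem mon_id {τ : Fin n ⊕ Fin n → Fin n ⊕ Fin n} (h : ∀ a, τ a = a) (c : Vc n) :
    mon τ c = diagonal c := by
  ext a b
  simp [mon, h, diagonal_apply, eq_comm]

def e (n : ℕ) : Vc n := Sum.elim 1 (-1)

theorem J_mon : J n = mon Sum.swap (e n) := by
  ext (i | i) (j | j) <;> simp [J, mon, e, one_apply, eq_comm]
  split_ifs <;> simp

def Inv (s : Mt n) : Prop := S s ∧ s * s = 1

theorem mon_inv {τ : Fin n ⊕ Fin n → Fin n ⊕ Fin n} {c : Vc n} (h1 : ∀ a, τ (τ a) = a)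
    (h2 : ∀ a, c (τ a) = star (c a)) (h3 : ∀ a, c a * star (c a) = 1)
    (h4 : ∀ a, (τ a).swap = τ a.swap) (h5 : ∀ a, c a * e n (τ a) = e n a * star (c a.swap)) :
    Inv (mon τ c) := by
  have a1 : mon τ c * mon τ c = 1 := by
    rw [mon_mul, mon_id h1]; simp only [h2, h3, diagonal_one]
  have a2 : (mon τ c)ᴴ = mon τ c := by
    ext a b
    simp only [mon, conjTranspose_apply, of_apply]
    by_cases h : b = τ a
    · subst h; simp [h1, h2]
    · rw [if_neg h, if_neg fun h' => h (by rw [h', h1]), star_zero]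
  have a3 : (mon τ c)ᴴᵀ = mon τ (star c) := by
    ext a b; simp [mon, apply_ite star]
  refine ⟨⟨by rw [a2, a1], ?_⟩, a1⟩
  rw [a3, J_mon, mon_mul, mon_mul]
  simp [h4, h5]

theorem Inv.conj {s U : Mt n} (h : Inv s) (hU : S U) : Inv (U * s * Uᴴ) :=
  ⟨(hU.mul h.1).mul hU.ct, by
    rw [Matrix.mul_assoc, ← Matrix.mul_assoc Uᴴ, ← Matrix.mul_assoc Uᴴ, hU.1, one_mul,
      Matrix.mul_assoc, ← Matrix.mul_assoc s, h.2, one_mul, mul_eq_one_comm.1 hU.1]⟩

theorem four_diag (π : Fin n → Fin n) (hπ : ∀ i, π (π i) = i) (z : Fin n → ℂ)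
    (hz : ∀ i, star (z i) * z i = 1) (h1 : ∀ i, π i = i → z i = 1) :
    ∃ a b c d : Mt n, Inv a ∧ Inv b ∧ Inv c ∧ Inv d ∧
      diagonal (Sum.elim z (star z)) = a * b * c * d := by
  obtain ⟨u, u1, u2, u3⟩ : ∃ u : Fin n → ℂ, (∀ i, u (π i) = u i) ∧ (∀ i, u i ^ 2 = z i * z (π i)) ∧
      ∀ i, π i = i → u i = 1 := by
    choose r hr using fun w : ℂ => IsAlgClosed.exists_pow_nat_eq w two_pos
    refine ⟨fun i => if π i = i then 1 else r (z i * z (π i)), fun i => ?_, fun i => ?_,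
      fun i hi => if_pos hi⟩
    · simp only [hπ, mul_comm, eq_comm]
    · by_cases h : π i = i
      · simp [h, h1 i h]
      · simp [h, hr]
  have u4 : ∀ i, star (u i) * u i = 1 := fun i => by
    have a1 : (star (u i) * u i) ^ 2 = 1 := by
      rw [mul_pow, ← star_pow, u2, star_mul']
      linear_combination (star (z (π i)) * z (π i)) * hz i + hz (π i)
    rw [Complex.star_def, ← Complex.normSq_eq_conj_mul_self] at a1 ⊢
    have a2 : Complex.normSq (u i) ^ 2 = 1 := by exact_mod_cast a1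
    have a3 := Complex.normSq_nonneg (u i)
    have : Complex.normSq (u i) = 1 := by nlinarith
    rw [this]; rfl
  obtain ⟨ε, e1, e2, e3⟩ : ∃ ε : Fin n → ℂ, (∀ i, π i ≠ i → ε (π i) = -ε i) ∧
      (∀ i, star (ε i) = ε i) ∧ ∀ i, ε i * ε i = 1 := by
    refine ⟨fun i => if i < π i then 1 else -1, fun i hi => ?_, fun i => ?_, fun i => ?_⟩
    · simp only [hπ]
      rcases lt_or_gt_of_ne hi with h | h
      · simp [h, h.not_gt]
      · simp [h, h.not_gt]
    · simp only; split_ifs <;> simp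
    · simp only; split_ifs <;> simp
  have hπ' : ∀ i, π i ≠ i → i ≠ π i := fun i h => h.symm
  have T : ∀ v : Fin n → ℂ, (∀ i, v (π i) = star (v i)) → (∀ i, star (v i) * v i = 1) →
      Inv (mon (Sum.map π π) (Sum.elim (star v) v)) := fun v v1 v2 =>
    mon_inv (by rintro (i | i) <;> simp [hπ]) (by rintro (i | i) <;> simp [v1])
      (by rintro (i | i); exacts [by simpa using v2 i, (mul_comm _ _).trans (v2 i)])
      (by rintro (i | i) <;> simp) (by rintro (i | i) <;> simp [e])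
  set τ : Fin n ⊕ Fin n → Fin n ⊕ Fin n := Sum.elim
    (fun i => if π i = i then .inl i else .inr (π i))
    (fun i => if π i = i then .inr i else .inl (π i)) with hτ
  have τ1 : ∀ a, τ (τ a) = a := by
    rintro (i | i) <;> by_cases h : π i = i <;> simp [hτ, h, hπ, hπ']
  have R : ∀ w : Fin n → ℂ, (∀ i, w (π i) = w i) → (∀ i, star (w i) * w i = 1) →
      Inv (mon τ (Sum.elim (fun i => if π i = i then 1 else ε i * star (w i))
        fun i => if π i = i then 1 else -ε i * w i)) := fun w w1 w2 =>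
    mon_inv τ1
      (by rintro (i | i) <;> by_cases h : π i = i <;>
            simp [hτ, h, hπ, hπ', w1, e1, -RCLike.star_def, e2])
      (by
        rintro (i | i) <;> by_cases h : π i = i <;> simp [h, -RCLike.star_def, e2]
        all_goals
          try simp only [starRingEnd_apply]
          linear_combination (ε i * ε i) * w2 i + e3 i)
      (by rintro (i | i) <;> by_cases h : π i = i <;> simp [hτ, h])
      (by rintro (i | i) <;> by_cases h : π i = i <;> simp [hτ, h, e, -RCLike.star_def, e2])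
  have v1 : ∀ i, z (π i) * star (u (π i)) = star (z i * star (u i)) := fun i => by
    rw [u1, star_mul', star_star]
    linear_combination (-z (π i) * star (u i)) * hz i - star (z i) * star (u i) * u2 i +
      star (z i) * u i * u4 i
  refine ⟨_, _, _, _, T 1 (by simp) (by simp), T (fun i => z i * star (u i)) v1 (fun i => by
    rw [star_mul', star_star]; linear_combination (star (u i) * u i) * hz i + u4 i),
    R 1 (by simp) (by simp), R u u1 u4, ?_⟩
  rw [Matrix.mul_assoc, mon_mul, mon_mul, mon_id τ1, mon_id (by rintro (i | i) <;> simp [hπ]),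
    diagonal_mul_diagonal]
  congr 1
  ext (i | i) <;> by_cases h : π i = i
  · simp [hτ, h, u3 i h, h1 i h]
  · simp [hτ, h, hπ, hπ', e1, -RCLike.star_def, u1 i]
    simp only [starRingEnd_apply]
    linear_combination (-u i ^ 2 * star (z (π i))) * e3 i - star (z (π i)) * u2 i - z i * hz (π i)
  · simp [hτ, h, u3 i h, h1 i h]
  · have u5 := congrArg star (u2 i)
    rw [star_pow, star_mul'] at u5
    simp [hτ, h, hπ, hπ', e1, -RCLike.star_def, u1 i]
    simp only [starRingEnd_apply]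
    linear_combination (-star (u i) ^ 2 * z (π i)) * e3 i - z (π i) * u5 - star (z i) * hz (π i)

theorem four {A : Mt n} (h : S A) {v : Fin n → Vc n} {z : Fin n → ℂ} (f : Fam A v z)
    (π : Fin n → Fin n) (hπ : ∀ i, π (π i) = i) (h1 : ∀ i, π i = i → z i = 1) :
    ∃ a b c d : Mt n, Inv a ∧ Inv b ∧ Inv c ∧ Inv d ∧ A = a * b * c * d := by
  obtain ⟨a, b, c, d, ha, hb, hc, hd, e⟩ := four_diag π hπ z (f.un h) h1
  refine ⟨_, _, _, _, ha.conj f.S, hb.conj f.S, hc.conj f.S, hd.conj f.S, ?_⟩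
  have : ∀ X : Mt n, (mkU v)ᴴ * (mkU v * X) = X := fun X => by
    rw [← Matrix.mul_assoc, f.S.1, one_mul]
  rw [f.diag h, e]
  simp only [Matrix.mul_assoc, this]

theorem S_one : S (1 : Mt n) := ⟨by simp, by simp⟩

theorem inv_one : Inv (1 : Mt n) := ⟨S_one, by simp⟩

theorem fam0 (A : Mt n) : Fam A (k := 0) ![] ![] := ⟨fun i => i.elim0, fun i => i.elim0, fun i => i.elim0⟩

theorem fam1 {A : Mt n} {x : Vc n} (h : ip x x = 1) (hx : A *ᵥ x = x) : Fam A ![x] ![1] :=
  ⟨fun i j => by fin_cases i; fin_cases j; simpa using h,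
    fun i j => by fin_cases i; fin_cases j; simpa using ip_σ_self x,
    fun i => by fin_cases i; simpa using hx⟩

theorem refl (hn : 1 ≤ n) {x y : Vc n} (h1 : ip x x = ip y y) (h2 : ip x y = ip y x)
    (h3 : ip (σ x) y = 0) : ∃ s : Mt n, Inv s ∧ s *ᵥ y = x := by
  by_cases h : x - y = 0
  · exact ⟨1, inv_one, by rw [one_mulVec, sub_eq_zero.1 h]⟩
  obtain ⟨c, c0, c1⟩ := normalize h
  obtain ⟨v, z, f, e⟩ := (fam1 c1 (one_mulVec _)).full S_one hn
  set o : Fin n := Fin.castLE hn 0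
  have e1 : v o = c • (x - y) := (e 0).1
  set g : Vc n := Sum.elim (fun i => if i = o then -1 else 1) fun i => if i = o then -1 else 1
    with hg
  have hD : Inv (mon id g) := mon_inv (fun _ => rfl)
    (by rintro (i | i) <;> simp [hg, apply_ite (starRingEnd ℂ)])
    (by rintro (i | i) <;> by_cases h : i = o <;> simp [hg, h]) (fun _ => rfl)
    (by rintro (i | i) <;> by_cases h : i = o <;> simp [hg, h, MP_8dad81_al.e])
  refine ⟨_, hD.conj f.S, ?_⟩
  have hU : ∀ w, mkU v *ᵥ ((mkU v)ᴴ *ᵥ w) = w := fun w => by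
    rw [mulVec_mulVec, mul_eq_one_comm.1 f.S.1, one_mulVec]
  have a1 : mon id g *ᵥ ((mkU v)ᴴ *ᵥ (x + y)) = (mkU v)ᴴ *ᵥ (x + y) := by
    have b1 : ip (v o) (x + y) = 0 := by
      rw [e1, ip_smul_l, ip_sub_l, ip_add_r, ip_add_r, h1, h2]; ring
    have b2 : ip (σ (v o)) (x + y) = 0 := by
      have b3 : ip (σ y) x = 0 := by
        rw [ip_star, ip_σ, ip_star, h3]; simp
      rw [e1, σ_smul, σ_sub, ip_smul_l, ip_sub_l, ip_add_r, ip_add_r, h3, b3, ip_star (σ x),
        ip_star (σ y), ip_σ_self, ip_σ_self]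
      simp
    rw [mon_id (τ := id) (fun _ => rfl), mk_ct]
    ext (i | i) <;> by_cases h : i = o <;> simp [mulVec_diagonal, hg, h, b1, b2]
  have a2 : mon id g *ᵥ ((mkU v)ᴴ *ᵥ v o) = -((mkU v)ᴴ *ᵥ v o) := by
    rw [mon_id (τ := id) (fun _ => rfl), mk_ct]
    ext (i | i) <;> by_cases h : i = o <;>
      simp [mulVec_diagonal, hg, h, f.on, ip_star (σ _), f.sy]
  have a3 : (mkU v * mon id g * (mkU v)ᴴ) *ᵥ (x + y) = x + y := by
    rw [← mulVec_mulVec, ← mulVec_mulVec, a1, hU]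
  have a4 : (mkU v * mon id g * (mkU v)ᴴ) *ᵥ v o = -v o := by
    rw [← mulVec_mulVec, ← mulVec_mulVec, a2, mulVec_neg, hU]
  rw [e1, mulVec_smul, ← smul_neg, mulVec_sub] at a4
  have a5 := smul_right_injective _ c0 a4
  rw [mulVec_add] at a3
  refine smul_right_injective _ (two_ne_zero (α := ℂ)) ?_
  simp only [two_smul]
  linear_combination a3 - a5

theorem good {A : Mt n} (h : S A) (hn : 2 ≤ n) :
    ∃ x : Vc n, x ≠ 0 ∧ (ip x (A *ᵥ x)).im = 0 ∧ ip (σ x) (A *ᵥ x) = 0 := by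
  obtain ⟨v, z, f, -⟩ := (fam0 A).full h (Nat.zero_le n)
  set i : Fin n := ⟨0, by omega⟩
  set j : Fin n := ⟨1, by omega⟩
  have hij : i ≠ j := by simp [i, j]
  have key : ∀ (p q : Vc n) (a b : ℂ), ip p p = 1 → ip q q = 1 → ip p q = 0 → ip p (σ q) = 0 →
      A *ᵥ p = a • p → A *ᵥ q = b • q → a.im * b.im ≤ 0 →
      ∃ x : Vc n, x ≠ 0 ∧ (ip x (A *ᵥ x)).im = 0 ∧ ip (σ x) (A *ᵥ x) = 0 := by
    intro p q a b p1 q1 pq pq' ha hb hab
    have qp : ip q p = 0 := by rw [ip_star, pq, star_zero]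
    have s1 : ∀ x : Vc n, ip (σ x) x = 0 := fun x => by rw [ip_star, ip_σ_self, star_zero]
    have s2 : ip (σ q) p = 0 := by rw [ip_star, pq', star_zero]
    have s3 : ip (σ p) q = 0 := by rw [ip_star, ip_σ, pq']; simp
    by_cases h0 : a.im = 0
    · refine ⟨p, fun e => by simp [e, ip] at p1, ?_, ?_⟩
      · rw [ha, ip_smul_r, p1, mul_one, h0]
      · rw [ha, ip_smul_r, s1, mul_zero]
    refine ⟨(√|b.im| : ℂ) • p + (√|a.im| : ℂ) • q, fun e => ?_, ?_, ?_⟩
    · have := congrArg (ip q) e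
      rw [ip_add_r, ip_smul_r, ip_smul_r, qp, q1] at this
      simp [ip, h0] at this
    · simp only [mulVec_add, mulVec_smul, ha, hb, ip_add_l, ip_add_r, ip_smul_l, ip_smul_r, p1, q1,
        pq, qp]
      have e1 := Real.mul_self_sqrt (abs_nonneg a.im)
      have e2 := Real.mul_self_sqrt (abs_nonneg b.im)
      have e3 : |b.im| * a.im + |a.im| * b.im = 0 := by
        rcases abs_cases a.im with ⟨c1, c2⟩ | ⟨c1, c2⟩ <;>
          rcases abs_cases b.im with ⟨d1, d2⟩ | ⟨d1, d2⟩ <;> rw [c1, d1] <;> nlinarith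
      simp
      linear_combination a.im * e2 + b.im * e1 + e3
    · simp only [mulVec_add, mulVec_smul, ha, hb, ip_add_l, ip_add_r, ip_smul_l, ip_smul_r, σ_add,
        σ_smul, s1, s2, s3]
      simp
  rcases le_total ((z i).im * (z j).im) 0 with c | c
  · exact key (v i) (v j) _ _ (by simp [f.on]) (by simp [f.on]) (by simp [f.on, hij]) (f.sy _ _)
      (f.ev i) (f.ev j) c
  · refine key (v i) (σ (v j)) (z i) (star (z j)) (by simp [f.on]) (by simp [ip_σσ, f.on])
      (f.sy _ _) ?_ (f.ev i) (by rw [h.σ, f.ev, σ_smul]) (by simpa using c)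
    have := f.on i j
    rw [if_neg hij] at this
    rw [σσ, ← neg_one_smul ℂ, ip_smul_r, this, mul_zero]

theorem main (hn : 2 ≤ n) {A : Mt n} (h : S A) :
    ∃ a b c d e : Mt n, Inv a ∧ Inv b ∧ Inv c ∧ Inv d ∧ Inv e ∧ A = a * b * c * d * e := by
  rcases Nat.even_or_odd' n with ⟨m, hm | hm⟩
  · obtain ⟨v, z, f, -⟩ := (fam0 A).full h (Nat.zero_le n)
    obtain ⟨a, b, c, d, ha, hb, hc, hd, e⟩ := four h f Fin.rev Fin.rev_rev fun i hi => by
      have := congrArg Fin.val hi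
      rw [Fin.val_rev] at this
      omega
    exact ⟨a, b, c, d, 1, ha, hb, hc, hd, inv_one, by rw [e, mul_one]⟩
  · obtain ⟨x, x0, x1, x2⟩ := good h hn
    obtain ⟨s, s1, s2⟩ := refl (x := x) (y := A *ᵥ x) (by omega) (h.ip x x).symm
      (by rw [ip_star (A *ᵥ x)]; exact (Complex.conj_eq_iff_im.2 x1).symm) x2
    obtain ⟨c, -, c1⟩ := normalize x0
    have h1 : 1 ≤ n := by omega
    obtain ⟨v, z, f, e⟩ := (fam1 (A := s * A) c1
      (by rw [mulVec_smul, ← mulVec_mulVec, s2])).full (s1.1.mul h) h1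
    obtain ⟨a, b, c, d, ha, hb, hc, hd, e'⟩ := four (s1.1.mul h) f
      (fun i => ⟨if i.1 = 0 then 0 else n - i.1, by split_ifs <;> omega⟩)
      (fun i => Fin.ext (by have := i.2; simp only; split_ifs <;> omega)) fun i hi => by
        have h2 := congrArg Fin.val hi
        have h3 : i = Fin.castLE h1 0 := Fin.ext (by
          simp only at h2; split_ifs at h2 <;> simp <;> omega)
        rw [h3]; exact (e 0).2
    refine ⟨s, a, b, c, d, s1, ha, hb, hc, hd, ?_⟩
    simp only [Matrix.mul_assoc] at e' ⊢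
    rw [← e', ← Matrix.mul_assoc, s1.2, one_mul]

end Pool.Agent.H.MP_8dad81_al
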